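import Pool.Agent.helper14.Kus3.NumCon
import Pool.Agent.helper14.Kus3.Field
import Pool.Agent.helper17.Kus3.KN1
import Pool.Agent.helper41.Kus3.Arcs
import Pool.Agent.helper28.Kus3.N4
import Pool.Agent.helper94.Kus3.N5
import Pool.Agent.helper19.Kus3.N6
import Pool.Agent.helper19.Kus3.N7

/-!
# Kusner's question, numerics part, section N8: preparations for the assembly

* `Phi_near`, `approx`: the polynomial of the checker approximates the integrand on the film;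
* `rad_bounds`, `rho2_neg`: the radius bounds of a strip;
* `outOK_chain`, `outOK_ex`, `inArcs_chain`, `inArcs_get`: unfolding of the checks.
-/

open Set Metric MeasureTheory
open scoped ContDiff Topology

namespace Kusner.Num.P

open Kusner.Num

/-! ### the polynomial approximates the integrand -/

theorem Phi_near {e m m' : ℝ} (he : |e| ≤ 1) (hm : |m| ≤ 1) (hm' : |m'| ≤ 51 / 50) :
    |Phi e m - Phi e m'| ≤ 10000 * |m - m'| := by
  have hsplit : Phi e m - Phi e m' =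
      (m - m') * ((m + m') * (((624/35) + (2392/35)*e^2 - (2280/7)*e^4 + (36048/35)*e^6 -
        (63744/35)*e^8 + (37368/35)*e^10 - (504/5)*e^12) +
        ((24/7) - (1188/35)*e^2 + (192/7)*e^4 - (21768/35)*e^6 + (17928/35)*e^8 -
          (252/5)*e^10) * (m ^ 2 + m' ^ 2))) := by
    unfold Phi; ring
  rw [hsplit, abs_mul, mul_comm (10000 : ℝ)]
  refine mul_le_mul_of_nonneg_left ?_ (abs_nonneg _)
  have ht : ∀ k : ℕ, 0 ≤ e ^ (2 * k) ∧ e ^ (2 * k) ≤ 1 := by
    intro k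
    rw [pow_mul]
    have h0 : 0 ≤ e ^ 2 := sq_nonneg e
    have h1 : e ^ 2 ≤ 1 := by
      rw [← sq_abs]; exact pow_le_one₀ (abs_nonneg e) he
    exact ⟨pow_nonneg h0 k, pow_le_one₀ h0 h1⟩
  obtain ⟨a1, b1⟩ := ht 1
  obtain ⟨a2, b2⟩ := ht 2
  obtain ⟨a3, b3⟩ := ht 3
  obtain ⟨a4, b4⟩ := ht 4
  obtain ⟨a5, b5⟩ := ht 5
  obtain ⟨a6, b6⟩ := ht 6
  norm_num at a1 b1 a2 b2 a3 b3 a4 b4 a5 b5 a6 b6
  have hB : |(624/35) + (2392/35)*e^2 - (2280/7)*e^4 + (36048/35)*e^6 -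
        (63744/35)*e^8 + (37368/35)*e^10 - (504/5)*e^12| ≤ 2248 := by
    have q1 : 0 ≤ e ^ 2 := sq_nonneg e
    have q2 : e ^ 2 ≤ 1 := by
      rw [← sq_abs]; exact pow_le_one₀ (abs_nonneg e) he
    rw [abs_le]; constructor <;> linarith
  have hC : |(24/7) - (1188/35)*e^2 + (192/7)*e^4 - (21768/35)*e^6 + (17928/35)*e^8 -
          (252/5)*e^10| ≤ 707 := by
    have q1 : 0 ≤ e ^ 2 := sq_nonneg e
    have q2 : e ^ 2 ≤ 1 := by
      rw [← sq_abs]; exact pow_le_one₀ (abs_nonneg e) he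
    rw [abs_le]; constructor <;> linarith
  have hsum : |m + m'| ≤ 101 / 50 := by
    refine (abs_add_le _ _).trans ?_
    linarith
  have hm2 : m ^ 2 ≤ 1 := by
    rw [← sq_abs]; exact pow_le_one₀ (abs_nonneg m) hm
  have hm2' : m' ^ 2 ≤ (51 / 50) ^ 2 := by
    rw [← sq_abs]; exact pow_le_pow_left₀ (abs_nonneg _) hm' 2
  have hsq : |m ^ 2 + m' ^ 2| ≤ 2041 / 1000 := by
    rw [abs_of_nonneg (by positivity)]
    norm_num at hm2' ⊢
    linarith
  rw [abs_mul]
  refine (mul_le_mul hsum ((abs_add_le _ _).trans (add_le_add hB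
    ((abs_mul _ _).le.trans (mul_le_mul hC hsq (abs_nonneg _) (by norm_num)))))
    (abs_nonneg _) (by norm_num)).trans ?_
  norm_num

/-- On a film circle `1 - m² = |wv|² ρ² + e²`. -/
theorem one_sub_sq {w0 wt : ℝ} {wv : E3} (hw : w0 ^ 2 + ‖wv‖ ^ 2 - wt ^ 2 = 1) (hwv : wv ≠ 0)
    (e : ℝ) : 1 - (w0 - wt * e) ^ 2 = ‖wv‖ ^ 2 * rho2 w0 wt wv e + e ^ 2 := by
  have hW : ‖wv‖ ≠ 0 := norm_ne_zero_iff.mpr hwv
  unfold rho2
  field_simp
  linear_combination (-1 + e ^ 2) * hw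

theorem film_bounds {w0 wt : ℝ} {wv : E3} (hw : w0 ^ 2 + ‖wv‖ ^ 2 - wt ^ 2 = 1) (hwv : wv ≠ 0)
    {e : ℝ} (h : 0 < rho2 w0 wt wv e) : |e| ≤ 1 ∧ |w0 - wt * e| ≤ 1 := by
  constructor
  · have h1 : e ^ 2 ≤ 1 := by
      have h2 : 0 ≤ (wt - w0 * e) ^ 2 / ‖wv‖ ^ 2 := by positivity
      unfold rho2 at h
      linarith
    exact (sq_le_one_iff_abs_le_one e).mp h1
  · have h1 := one_sub_sq hw hwv e
    have h2 : 0 ≤ ‖wv‖ ^ 2 * rho2 w0 wt wv e := by positivity
    have h3 : (w0 - wt * e) ^ 2 ≤ 1 := by nlinarith [sq_nonneg e]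
    exact (sq_le_one_iff_abs_le_one _).mp h3

theorem approx {f : QFilm} {δ errf : ℚ} (hδ : δ ≤ 1 / 100) (herr : 20000 * δ ≤ errf)
    {w0 wt : ℝ} (h0 : Near δ w0 f.w0) (ht : Near δ wt f.wt) {e : ℝ} (he : |e| ≤ 1)
    (hm : |w0 - wt * e| ≤ 1) :
    |Phi e (w0 - wt * e) - evL (phiL f.w0 f.wt) e| ≤ (errf : ℝ) := by
  unfold Near at h0 ht
  have hδ' : (δ : ℝ) ≤ 1 / 100 := by
    have h1 : ((δ : ℚ) : ℝ) ≤ ((1 / 100 : ℚ) : ℝ) := Rat.cast_le.mpr hδ
    push_cast at h1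
    exact h1
  have herr' : 20000 * (δ : ℝ) ≤ (errf : ℝ) := by exact_mod_cast herr
  have hd : |(w0 - wt * e) - ((f.w0 : ℝ) - f.wt * e)| ≤ 2 * (δ : ℝ) := by
    have h1 : (w0 - wt * e) - ((f.w0 : ℝ) - f.wt * e) = (w0 - f.w0) - (wt - f.wt) * e := by ring
    rw [h1]
    refine (abs_sub _ _).trans ?_
    rw [abs_mul]
    have h2 : |wt - (f.wt : ℝ)| * |e| ≤ (δ : ℝ) * 1 :=
      mul_le_mul ht he (abs_nonneg _) ((abs_nonneg _).trans ht)
    linarith
  have hm' : |(f.w0 : ℝ) - f.wt * e| ≤ 51 / 50 := by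
    have h3 : (f.w0 : ℝ) - f.wt * e = (w0 - wt * e) - ((w0 - wt * e) - ((f.w0 : ℝ) - f.wt * e)) := by
      ring
    rw [h3]
    refine (abs_sub _ _).trans ?_
    linarith
  rw [evL_phiL]
  refine (Phi_near he hm hm').trans ?_
  linarith

/-! ### the radius -/

theorem rad_bounds {f : QFilm} {δ ε : ℚ} (hδ : 0 ≤ δ) (hε : 0 ≤ ε) {w0 wt : ℝ} {wv a b : E3}
    {cons : List Con} (h : FilmClose δ f w0 wt wv a b cons) (hwv : wv ≠ 0)
    (hok : filmOK f δ ε = true) {s : QStrip} (hs : radOK f ε s = true) {x : ℝ}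
    (h0 : (s.e0 : ℝ) ≤ x) (h1 : x ≤ s.e1) :
    (s.rlo : ℝ) ≤ Real.sqrt (rho2 w0 wt wv x) ∧ Real.sqrt (rho2 w0 wt wv x) ≤ s.rhi := by
  simp only [radOK, Bool.and_eq_true, Bool.or_eq_true, decide_eq_true_eq] at hs
  obtain ⟨⟨⟨⟨⟨⟨he0, he01⟩, he1⟩, hrlo⟩, hrr⟩, hlo⟩, hhi⟩ := hs
  obtain ⟨-, n1, n2⟩ := near_film hδ h hok he0 (le_trans he01 he1)
  obtain ⟨-, n3, -⟩ := near_film hδ h hok (le_trans he0 he01) he1
  obtain ⟨c1, c2⟩ := rho2_strip hwv h0 h1 (w0 := w0) (wt := wt)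
  rw [abs_le] at n1 n2 n3
  have hε' : (0 : ℝ) ≤ ε := by exact_mod_cast hε
  constructor
  · rcases hlo with hlo | hlo
    · rw [hlo]; simp
    · apply Real.le_sqrt_of_sq_le
      have h2 : (s.rlo : ℝ) ^ 2 + ε ≤ min ((f.r2 s.e0 : ℚ) : ℝ) ((f.r2 s.e1 : ℚ) : ℝ) := by
        exact_mod_cast hlo
      rw [le_min_iff] at h2
      refine le_trans ?_ c1
      rw [le_min_iff]
      constructor <;> linarith [h2.1, h2.2, n1.1, n3.1]
  · rw [Real.sqrt_le_iff]
    constructor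
    · have : (0 : ℚ) ≤ s.rhi := le_trans hrlo hrr
      exact_mod_cast this
    · have h2 : ((f.r2 s.e0 : ℚ) : ℝ) + max 0 ((f.dr2 s.e0 : ℚ) : ℝ) * ((s.e1 : ℝ) - s.e0) +
          2 * ε ≤ (s.rhi : ℝ) ^ 2 := by exact_mod_cast hhi
      have h3 : (0 : ℝ) ≤ (s.e1 : ℝ) - s.e0 := by linarith
      have h4 : (s.e1 : ℝ) - s.e0 ≤ 1 := by
        have h5 : (s.e1 : ℝ) ≤ 1 := by exact_mod_cast he1
        have h6 : (0 : ℝ) ≤ s.e0 := by exact_mod_cast he0
        linarith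
      have h7 : max 0 (-2 * (s.e0 : ℝ) + 2 * w0 * (wt - w0 * s.e0) / ‖wv‖ ^ 2) ≤
          max 0 ((f.dr2 s.e0 : ℚ) : ℝ) + ε := by
        apply max_le
        · have := le_max_left (0 : ℝ) ((f.dr2 s.e0 : ℚ) : ℝ)
          linarith
        · have := le_max_right (0 : ℝ) ((f.dr2 s.e0 : ℚ) : ℝ)
          linarith [n2.2]
      have h8 := mul_le_mul_of_nonneg_right h7 h3
      have h9 : (ε : ℝ) * ((s.e1 : ℝ) - s.e0) ≤ ε * 1 := mul_le_mul_of_nonneg_left h4 hε'
      linarith [n1.2]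

theorem rho2_nonpos {f : QFilm} {δ ε : ℚ} (hδ : 0 ≤ δ) (hε : 0 ≤ ε) {w0 wt : ℝ} {wv a b : E3}
    {cons : List Con} (h : FilmClose δ f w0 wt wv a b cons) (hwv : wv ≠ 0)
    (hok : filmOK f δ ε = true) {s : QStrip} (he0 : 0 ≤ s.e0) (he01 : s.e0 ≤ s.e1)
    (he1 : s.e1 ≤ 1) (hs : f.r2 s.e0 + max 0 (f.dr2 s.e0) * (s.e1 - s.e0) + 2 * ε ≤ 0) {x : ℝ}
    (h0 : (s.e0 : ℝ) ≤ x) (h1 : x ≤ s.e1) : rho2 w0 wt wv x ≤ 0 := by
  obtain ⟨-, n1, n2⟩ := near_film hδ h hok he0 (le_trans he01 he1)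
  obtain ⟨c1, c2⟩ := rho2_strip hwv h0 h1 (w0 := w0) (wt := wt)
  rw [abs_le] at n1 n2
  have hε' : (0 : ℝ) ≤ ε := by exact_mod_cast hε
  have h2 : ((f.r2 s.e0 : ℚ) : ℝ) + max 0 ((f.dr2 s.e0 : ℚ) : ℝ) * ((s.e1 : ℝ) - s.e0) +
      2 * ε ≤ 0 := by exact_mod_cast hs
  have h3 : (0 : ℝ) ≤ (s.e1 : ℝ) - s.e0 := by linarith
  have h4 : (s.e1 : ℝ) - s.e0 ≤ 1 := by
    have h5 : (s.e1 : ℝ) ≤ 1 := by exact_mod_cast he1
    have h6 : (0 : ℝ) ≤ s.e0 := by exact_mod_cast he0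
    linarith
  have h7 : max 0 (-2 * (s.e0 : ℝ) + 2 * w0 * (wt - w0 * s.e0) / ‖wv‖ ^ 2) ≤
      max 0 ((f.dr2 s.e0 : ℚ) : ℝ) + ε := by
    apply max_le
    · have := le_max_left (0 : ℝ) ((f.dr2 s.e0 : ℚ) : ℝ)
      linarith
    · have := le_max_right (0 : ℝ) ((f.dr2 s.e0 : ℚ) : ℝ)
      linarith [n2.2]
  have h8 := mul_le_mul_of_nonneg_right h7 h3
  have h9 : (ε : ℝ) * ((s.e1 : ℝ) - s.e0) ≤ ε * 1 := mul_le_mul_of_nonneg_left h4 hε'
  linarith [n1.2]

/-! ### unfolding the checks -/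

theorem outOK_chain {f : QFilm} {ε : ℚ} {s : QStrip} : ∀ {l : List (ℚ × ℕ)},
    outOK f ε s l = true →
    (l.IsChain fun x y => x.1 < y.1 ∧ 0 < 1 + x.1 * y.1) ∧ l.getLast?.map Prod.fst = some 1
  | [], h => by simp [outOK] at h
  | [(τ, k)], h => by
      simp only [outOK, decide_eq_true_eq] at h
      simp [h]
  | (τ0, k) :: (τ1, j) :: r, h => by
      unfold outOK at h
      simp only [Bool.and_eq_true, decide_eq_true_eq] at h
      obtain ⟨⟨⟨h1, h2⟩, -⟩, h4⟩ := h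
      obtain ⟨c1, c2⟩ := outOK_chain h4
      refine ⟨List.isChain_cons_cons.mpr ⟨⟨h1, h2⟩, c1⟩, ?_⟩
      rw [List.getLast?_cons_cons]
      exact c2

theorem outOK_ex {f : QFilm} {ε : ℚ} {s : QStrip} : ∀ {l : List (ℚ × ℕ)},
    outOK f ε s l = true → ∀ i (hi : i + 1 < l.length), (l[i]).2 ≠ 0 → ∃ (j : ℕ) (g : QCon),
      (j = 0 → 7 / 20 ≤ s.e0) ∧ (j = 1 → s.e1 ≤ 7 / 20) ∧ f.cons[j]? = some g ∧
      0 < (f.qc g).lo ε s.e0 s.e1 s.rlo s.rhi (l[i]).1 (l[i + 1]).1 ∧ (l[i]).1 < (l[i + 1]).1 ∧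
      0 < 1 + (l[i]).1 * (l[i + 1]).1
  | [], _, i, hi, _ => by simp at hi
  | [(τ, k)], _, i, hi, _ => by simp at hi
  | (τ0, k) :: (τ1, j) :: r, h, i, hi, hk => by
      unfold outOK at h
      simp only [Bool.and_eq_true, decide_eq_true_eq] at h
      obtain ⟨⟨⟨h1, h2⟩, h3⟩, h4⟩ := h
      match i with
      | 0 =>
        simp only [List.getElem_cons_zero, List.getElem_cons_succ] at hk ⊢
        match k, hk with
        | j + 1, _ =>
          simp only [Bool.and_eq_true, Bool.or_eq_true, decide_eq_true_eq] at h3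
          obtain ⟨⟨h5, h6⟩, h7⟩ := h3
          rcases hg : f.cons[j]? with _ | g
          · rw [hg] at h7; simp at h7
          · rw [hg] at h7
            simp only [decide_eq_true_eq] at h7
            refine ⟨j, g, fun h => ?_, fun h => ?_, hg, h7, h1, h2⟩
            · rcases h5 with h5 | h5
              · exact absurd h h5
              · exact h5
            · rcases h6 with h6 | h6
              · exact absurd h h6
              · exact h6
      | i + 1 =>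
        simp only [List.getElem_cons_succ] at hk ⊢
        exact outOK_ex h4 i (by simpa using hi) hk

theorem inArcs_chain {f : QFilm} {ε : ℚ} {s : QStrip} : ∀ {l : List (ℚ × ℕ)},
    inArcs f ε s l = true → l.IsChain fun x y => x.1 < y.1 ∧ 0 < 1 + x.1 * y.1
  | [], _ => by simp
  | [_], _ => by simp
  | (τ0, k) :: (τ1, j) :: r, h => by
      unfold inArcs at h
      simp only [Bool.and_eq_true] at h
      obtain ⟨h1, h2⟩ := h
      refine List.isChain_cons_cons.mpr ⟨?_, inArcs_chain h2⟩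
      unfold inOK at h1
      simp only [Bool.and_eq_true, decide_eq_true_eq] at h1
      exact ⟨h1.1.1.1.1, h1.1.1.1.2⟩

theorem inArcs_get {f : QFilm} {ε : ℚ} {s : QStrip} : ∀ {l : List (ℚ × ℕ)},
    inArcs f ε s l = true → ∀ i (hi : i + 1 < l.length),
      inOK f ε s (l[i]).1 (l[i + 1]).1 = true
  | [], _, i, hi => by simp at hi
  | [_], _, i, hi => by simp at hi
  | (τ0, k) :: (τ1, j) :: r, h, i, hi => by
      unfold inArcs at h
      simp only [Bool.and_eq_true] at h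
      match i with
      | 0 => exact h.1
      | i + 1 =>
        simp only [List.getElem_cons_succ]
        exact inArcs_get h.2 i (by simpa using hi)

/-- Lengths of arcs are nonnegative. -/
theorem h11_outLen_nonneg : ∀ {l : List (ℚ × ℕ)},
    (l.IsChain fun x y => x.1 < y.1 ∧ 0 < 1 + x.1 * y.1) → (0 : ℝ) ≤ (outLen l : ℚ)
  | [], _ => by simp [outLen]
  | [_], _ => by simp [outLen]
  | (τ0, k) :: (τ1, j) :: r, h => by
      rw [List.isChain_cons_cons] at h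
      obtain ⟨⟨h1, h2⟩, h3⟩ := h
      have h4 := h11_outLen_nonneg h3
      have h5 := arc_len_le h1 h2
      have h6 : Real.arctan τ0 < Real.arctan τ1 := Real.arctan_strictMono (by exact_mod_cast h1)
      have h7 : (0 : ℝ) ≤ (arcHi τ0 τ1 : ℚ) := by linarith
      unfold outLen
      push_cast
      have h8 : (0 : ℝ) ≤ (if k = 0 then ((arcHi τ0 τ1 : ℚ) : ℝ) else 0) := by
        split_ifs
        · exact h7
        · exact le_refl _
      have h9 : (((if k = 0 then arcHi τ0 τ1 else 0 : ℚ)) : ℝ) =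
          (if k = 0 then ((arcHi τ0 τ1 : ℚ) : ℝ) else 0) := by
        split_ifs <;> simp
      linarith

theorem h11_inLen_nonneg : ∀ (l : List (ℚ × ℕ)), (0 : ℚ) ≤ inLen l
  | [] => by simp [inLen]
  | [_] => by simp [inLen]
  | (τ0, k) :: (τ1, j) :: r => by
      unfold inLen
      have := h11_inLen_nonneg ((τ1, j) :: r)
      have h := le_max_left (0 : ℚ) (arcLo τ0 τ1)
      linarith

/-! ### the constraints -/

theorem cons_get {δ : ℚ} : ∀ {cons : List Con} {l : List QCon}, List.Forall₂ (NearC δ) cons l →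
    ∀ {j : ℕ} {q : QCon}, l[j]? = some q → ∃ g, cons[j]? = some g ∧ NearC δ g q
  | _, _, List.Forall₂.nil, j, q, h => by simp at h
  | _, _, List.Forall₂.cons h1 h2, 0, q, h => by
      simp only [List.getElem?_cons_zero, Option.some.injEq] at h
      subst h
      exact ⟨_, by simp, h1⟩
  | _, _, List.Forall₂.cons h1 h2, j + 1, q, h => by
      simp only [List.getElem?_cons_succ] at h ⊢
      exact cons_get h2 h

theorem cons_get' {δ : ℚ} : ∀ {cons : List Con} {l : List QCon}, List.Forall₂ (NearC δ) cons l →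
    ∀ {j : ℕ} {g : Con}, cons[j]? = some g → ∃ q, l[j]? = some q ∧ NearC δ g q
  | _, _, List.Forall₂.nil, j, q, h => by simp at h
  | _, _, List.Forall₂.cons h1 h2, 0, q, h => by
      simp only [List.getElem?_cons_zero, Option.some.injEq] at h
      subst h
      exact ⟨_, by simp, h1⟩
  | _, _, List.Forall₂.cons h1 h2, j + 1, q, h => by
      simp only [List.getElem?_cons_succ] at h ⊢
      exact cons_get' h2 h

theorem nearOK_of_get {f : QFilm} {δ ε : ℚ} (h : f.cons.all (nearOK f δ ε) = true) {j : ℕ}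
    {q : QCon} (hq : f.cons[j]? = some q) : nearOK f δ ε q = true := by
  rw [List.all_eq_true] at h
  exact h q (List.mem_of_getElem? hq)

/-! ### chains of strips -/

theorem chain_get {l : List QStrip} : ∀ {a b : ℚ}, chainOK a l b = true →
    (l.map QStrip.e0).getD 0 b = a ∧
      ∀ i (hi : i < l.length), (l.map QStrip.e0).getD (i + 1) b = (l[i]).e1 := by
  induction l with
  | nil =>
    intro a b h
    simp only [chainOK, decide_eq_true_eq] at h
    simp [h]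
  | cons s r ih =>
    intro a b h
    simp only [chainOK, Bool.and_eq_true, decide_eq_true_eq] at h
    obtain ⟨h1, h2⟩ := h
    obtain ⟨i1, i2⟩ := ih h2
    refine ⟨by simp [h1], ?_⟩
    intro i hi
    match i with
    | 0 => simpa using i1
    | i + 1 =>
      have := i2 i (by simpa using hi)
      simpa using this

theorem sum_getD (l : List ℝ) : ∑ i ∈ Finset.range l.length, l.getD i 0 = l.sum := by
  induction l with
  | nil => simp
  | cons a r ih =>
    rw [List.length_cons, Finset.sum_range_succ', List.sum_cons, ← ih]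
    simp [add_comm]

end Kusner.Num.P
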