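import Pool.Agent.helper11.Kus3.PieceA

/-!
# Kusner's question, numerics part, section N8: slices of a film in a strip
-/

open Set Metric MeasureTheory
open scoped ContDiff Topology

namespace Kusner.Num.P

open Kusner.Num

/-! ### the parametrisation -/

/-- The parameter domain of a film. -/
def dom (w0 wt : ℝ) (wv a b : E3) (S : Set E4) : Set (ℝ × ℝ) :=
  {u : ℝ × ℝ | 0 < rho2 w0 wt wv u.1 ∧ u.2 ∈ Ioc (-Real.pi) Real.pi ∧
    fpar w0 wt wv a b u ∈ S}

theorem fpar_zero (w0 wt : ℝ) (wv a b : E3) (u : ℝ × ℝ) : fpar w0 wt wv a b u 0 = u.1 := by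
  simp [fpar]

theorem vec_fpar (w0 wt : ℝ) (wv a b : E3) (u : ℝ × ℝ) :
    vec (fpar w0 wt wv a b u) = ((wt - w0 * u.1) / ‖wv‖ ^ 2) • wv +
      Real.sqrt (rho2 w0 wt wv u.1) • (Real.cos u.2 • a + Real.sin u.2 • b) := by
  ext i
  fin_cases i <;> simp [fpar, vec] <;> ring

theorem continuous_rho2 (w0 wt : ℝ) (wv : E3) : Continuous (rho2 w0 wt wv) := by
  unfold rho2; fun_prop

theorem continuous_fpar (w0 wt : ℝ) (wv a b : E3) : Continuous (fpar w0 wt wv a b) := by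
  unfold fpar rho2
  fun_prop

theorem measurableSet_dom (w0 wt : ℝ) (wv a b : E3) {S : Set E4} (hS : MeasurableSet S) :
    MeasurableSet (dom w0 wt wv a b S) := by
  have h1 : MeasurableSet {u : ℝ × ℝ | 0 < rho2 w0 wt wv u.1} :=
    (isOpen_lt continuous_const ((continuous_rho2 w0 wt wv).comp continuous_fst)).measurableSet
  have h2 : MeasurableSet {u : ℝ × ℝ | u.2 ∈ Ioc (-Real.pi) Real.pi} :=
    measurable_snd measurableSet_Ioc
  have h3 : MeasurableSet {u : ℝ × ℝ | fpar w0 wt wv a b u ∈ S} :=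
    (continuous_fpar w0 wt wv a b).measurable hS
  exact h1.inter (h2.inter h3)

theorem fpar_plane {w0 wt : ℝ} {wv a b : E3} (hwv : wv ≠ 0) (hab : Perp wv a b) (u : ℝ × ℝ) :
    w0 * fpar w0 wt wv a b u 0 + inner ℝ wv (vec (fpar w0 wt wv a b u)) = wt := by
  have hW : ‖wv‖ ≠ 0 := norm_ne_zero_iff.mpr hwv
  rw [fpar_zero, vec_fpar, inner_add_right, real_inner_smul_right, real_inner_smul_right,
    inner_add_right, real_inner_smul_right, real_inner_smul_right, hab.wa, hab.wb,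
    real_inner_self_eq_norm_sq]
  field_simp
  ring

theorem inner_a_fpar {w0 wt : ℝ} {wv a b : E3} (hab : Perp wv a b) (u : ℝ × ℝ) :
    inner ℝ a (vec (fpar w0 wt wv a b u)) =
      Real.sqrt (rho2 w0 wt wv u.1) * Real.cos u.2 := by
  have h1 : (inner ℝ a wv : ℝ) = 0 := by rw [real_inner_comm]; exact hab.wa
  rw [vec_fpar, inner_add_right, real_inner_smul_right, real_inner_smul_right,
    inner_add_right, real_inner_smul_right, real_inner_smul_right, h1, hab.ab,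
    real_inner_self_eq_norm_sq, hab.na]
  ring

theorem norm_fpar {w0 wt : ℝ} {wv a b : E3} (hwv : wv ≠ 0) (hab : Perp wv a b) {u : ℝ × ℝ}
    (hr : 0 ≤ rho2 w0 wt wv u.1) : ‖fpar w0 wt wv a b u‖ = 1 := by
  have hW : ‖wv‖ ≠ 0 := norm_ne_zero_iff.mpr hwv
  have h0 : ‖fpar w0 wt wv a b u‖ ^ 2 = u.1 ^ 2 + ‖vec (fpar w0 wt wv a b u)‖ ^ 2 := by
    rw [EuclideanSpace.real_norm_sq_eq, EuclideanSpace.real_norm_sq_eq, Fin.sum_univ_four,
      Fin.sum_univ_three, fpar_zero]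
    simp [vec]
    ring
  have hba : (inner ℝ b a : ℝ) = 0 := by rw [real_inner_comm]; exact hab.ab
  have haw : (inner ℝ a wv : ℝ) = 0 := by rw [real_inner_comm]; exact hab.wa
  have hbw : (inner ℝ b wv : ℝ) = 0 := by rw [real_inner_comm]; exact hab.wb
  have h1 : ‖vec (fpar w0 wt wv a b u)‖ ^ 2 =
      (wt - w0 * u.1) ^ 2 / ‖wv‖ ^ 2 + rho2 w0 wt wv u.1 := by
    have haa : (inner ℝ a a : ℝ) = 1 := by rw [real_inner_self_eq_norm_sq, hab.na]; norm_num
    have hbb : (inner ℝ b b : ℝ) = 1 := by rw [real_inner_self_eq_norm_sq, hab.nb]; norm_num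
    have hww : (inner ℝ wv wv : ℝ) = ‖wv‖ ^ 2 := real_inner_self_eq_norm_sq wv
    rw [← real_inner_self_eq_norm_sq, vec_fpar]
    simp only [inner_add_left, inner_add_right, real_inner_smul_left, real_inner_smul_right,
      hab.wa, hab.wb, hab.ab, hba, haw, hbw, haa, hbb, hww]
    have hs := Real.sq_sqrt hr
    have hc := Real.sin_sq_add_cos_sq u.2
    generalize Real.sqrt (rho2 w0 wt wv u.1) = r at hs ⊢
    generalize rho2 w0 wt wv u.1 = R at hs ⊢
    subst hs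
    field_simp
    linear_combination (‖wv‖ ^ 2 * r ^ 2) * hc
  have h2 : ‖fpar w0 wt wv a b u‖ ^ 2 = 1 := by
    rw [h0, h1]
    unfold rho2
    ring
  have h3 := norm_nonneg (fpar w0 wt wv a b u)
  nlinarith

theorem slice_subset (w0 wt : ℝ) (wv a b : E3) (S : Set E4) (x : ℝ) :
    slice (dom w0 wt wv a b S) x ⊆ Ioc (-Real.pi) Real.pi := fun _ h => h.2.1

theorem slice_eq_empty {w0 wt : ℝ} {wv a b : E3} {S : Set E4} {x : ℝ}
    (h : rho2 w0 wt wv x ≤ 0) : slice (dom w0 wt wv a b S) x = ∅ := by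
  ext θ
  simp only [slice, dom, mem_ofPred_eq, mem_empty_iff_false, iff_false, not_and]
  intro h1
  exact absurd h1 (not_lt.mpr h)

theorem volume_slice_lt_top (w0 wt : ℝ) (wv a b : E3) (S : Set E4) (x : ℝ) :
    volume (slice (dom w0 wt wv a b S) x) < ⊤ :=
  (measure_mono (slice_subset w0 wt wv a b S x)).trans_lt measure_Ioc_lt_top

/-! ### outer bound of a slice -/

theorem slice_le_outLen {f : QFilm} {δ ε : ℚ} (hδ : 0 ≤ δ) (hε : 0 ≤ ε) {w0 wt : ℝ}
    {wv a b : E3} {cons : List Con} (hcl : FilmClose δ f w0 wt wv a b cons) (hwv : wv ≠ 0)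
    (hab : Perp wv a b) (hfilm : filmOK f δ ε = true) (hnear : f.cons.all (nearOK f δ ε) = true)
    {S : Set E4} (hcos : ∀ Y ∈ S, 0 ≤ inner ℝ a (vec Y))
    (hout : ∀ Y ∈ S, ∀ (j : ℕ) (g : Con), cons[j]? = some g → (j = 0 → 7 / 20 ≤ Y 0) →
      (j = 1 → Y 0 ≤ 7 / 20) → g.val Y ≤ 0)
    {s : QStrip} (hrad : radOK f ε s = true) (harcs : arcsOK f ε s = true) {x : ℝ}
    (h0 : (s.e0 : ℝ) ≤ x) (h1 : x ≤ s.e1) :
    volume (slice (dom w0 wt wv a b S) x) ≤ ENNReal.ofReal (outLen s.arcs : ℚ) ∧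
      (0 : ℝ) ≤ (outLen s.arcs : ℚ) := by
  obtain ⟨r1, r2⟩ := rad_bounds hδ hε hcl hwv hfilm hrad h0 h1
  unfold arcsOK at harcs
  rcases hl : s.arcs with _ | ⟨⟨τ, k⟩, r⟩
  · rw [hl] at harcs; simp at harcs
  rw [hl] at harcs
  simp only [Bool.and_eq_true, decide_eq_true_eq] at harcs
  obtain ⟨hτ, ho⟩ := harcs
  obtain ⟨c1, c2⟩ := outOK_chain ho
  refine ⟨?_, h11_outLen_nonneg c1⟩
  refine volume_le_outLen (slice_subset w0 wt wv a b S x) ?_ ?_ c2 c1 ?_
  · intro θ hθ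
    have h2 := hcos _ hθ.2.2
    rw [inner_a_fpar hab] at h2
    have h3 : 0 < Real.sqrt (rho2 w0 wt wv x) := Real.sqrt_pos.mpr hθ.1
    exact nonneg_of_mul_nonneg_right h2 h3
  · simp [hτ]
  · intro i hi hk θ hθ hin
    obtain ⟨j, q, hj0, hj1, hq, hlo, t1, t2⟩ := outOK_ex ho i hi hk
    obtain ⟨g, hg, hnq⟩ := cons_get hcl.cons hq
    obtain ⟨p1, p2, p3, p4⟩ := near_qc hδ hcl hnq (nearOK_of_get hnear hq)
    have hrad' := hrad
    simp only [radOK, Bool.and_eq_true, Bool.or_eq_true, decide_eq_true_eq] at hrad'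
    obtain ⟨⟨⟨⟨⟨⟨he0, he01⟩, he1⟩, hrlo⟩, hrr⟩, -⟩, -⟩ := hrad'
    have hpos := box_lo hε p1 p2 p3 p4 t1 t2 he0 h0 h1 he1 hrlo r1 r2 hin.1 hin.2 hlo
    have hval := val_fpar hwv g (x, θ) (w0 := w0) (wt := wt) (a := a) (b := b)
    simp only at hval
    rw [← hval] at hpos
    have hY0 : fpar w0 wt wv a b (x, θ) 0 = x := fpar_zero _ _ _ _ _ _
    have hle := hout _ hθ.2.2 j g hg
      (fun h => by
        rw [hY0]
        have h3 : ((7 / 20 : ℚ) : ℝ) ≤ (s.e0 : ℝ) := Rat.cast_le.mpr (hj0 h)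
        push_cast at h3
        linarith)
      (fun h => by
        rw [hY0]
        have h3 : (s.e1 : ℝ) ≤ ((7 / 20 : ℚ) : ℝ) := Rat.cast_le.mpr (hj1 h)
        push_cast at h3
        linarith)
    linarith

/-! ### inner bound of a slice -/

theorem inLen_le_slice {f : QFilm} {δ ε : ℚ} (hδ : 0 ≤ δ) (hε : 0 ≤ ε) {w0 wt : ℝ}
    {wv a b : E3} {cons : List Con} (hcl : FilmClose δ f w0 wt wv a b cons) (hwv : wv ≠ 0)
    (hab : Perp wv a b) (hfilm : filmOK f δ ε = true) (hnear : f.cons.all (nearOK f δ ε) = true)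
    {S : Set E4} {ebot : ℚ}
    (hin : ∀ Y : E4, ‖Y‖ = 1 →
      w0 * Y 0 + inner ℝ wv (vec Y) = wt → (ebot : ℝ) ≤ Y 0 →
      (∀ (j : ℕ) (g : Con), cons[j]? = some g → 2 ≤ j → g.val Y ≤ 0) →
      (∃ g, (cons[0]? = some g ∨ cons[1]? = some g) ∧ g.val Y ≤ 0) → Y ∈ S)
    {s : QStrip} (hrad : radOK f ε s = true) (hrlo' : 0 < s.rlo)
    (harcs : inArcs f ε s s.arcs = true) {x : ℝ} (hbot : (ebot : ℝ) ≤ s.e0)
    (h0 : (s.e0 : ℝ) ≤ x) (h1 : x ≤ s.e1) :
    ENNReal.ofReal (inLen s.arcs : ℚ) ≤ volume (slice (dom w0 wt wv a b S) x) := by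
  obtain ⟨r1, r2⟩ := rad_bounds hδ hε hcl hwv hfilm hrad h0 h1
  have hrlo'' : (0 : ℝ) < s.rlo := by exact_mod_cast hrlo'
  have hrho : 0 < rho2 w0 wt wv x := Real.sqrt_pos.mp (lt_of_lt_of_le hrlo'' r1)
  refine inLen_le_volume (inArcs_chain harcs) ?_
  intro i hi θ hθ0 hθ1
  have hok := inArcs_get harcs i hi
  have hrad' := hrad
  simp only [radOK, Bool.and_eq_true, Bool.or_eq_true, decide_eq_true_eq] at hrad'
  obtain ⟨⟨⟨⟨⟨⟨he0, he01⟩, he1⟩, hrlo⟩, hrr⟩, -⟩, -⟩ := hrad'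
  unfold inOK at hok
  simp only [Bool.and_eq_true, decide_eq_true_eq] at hok
  obtain ⟨⟨⟨⟨t1, t2⟩, t3⟩, t4⟩, t5⟩ := hok
  -- the constraints which pass the test hold
  have key : ∀ {j : ℕ} {g : Con} {q : QCon}, cons[j]? = some g → f.cons[j]? = some q →
      NearC δ g q → inCon f ε s (s.arcs[i]).1 (s.arcs[i + 1]).1 q = true →
      g.val (fpar w0 wt wv a b (x, θ)) ≤ 0 := by
    intro j g q hg hq hnq hc
    obtain ⟨p1, p2, p3, p4⟩ := near_qc hδ hcl hnq (nearOK_of_get hnear hq)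
    simp only [inCon, decide_eq_true_eq] at hc
    have hle := box_hi hε p1 p2 p3 p4 t1 t2 he0 h0 h1 he1 hrlo r1 r2 hθ0 hθ1 hc
    have hval := val_fpar hwv g (x, θ) (w0 := w0) (wt := wt) (a := a) (b := b)
    simp only at hval
    rw [hval]
    exact hle
  refine ⟨hrho, ⟨?_, ?_⟩, ?_⟩
  · have := Real.neg_pi_div_two_lt_arctan ((s.arcs[i]).1 : ℝ)
    linarith
  · have := Real.arctan_lt_pi_div_two ((s.arcs[i + 1]).1 : ℝ)
    linarith
  · apply hin _ (norm_fpar hwv hab hrho.le) (fpar_plane hwv hab _)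
    · rw [fpar_zero]; exact hbot.trans h0
    · intro j g hg hj
      obtain ⟨q, hq, hnq⟩ := cons_get' hcl.cons hg
      refine key hg hq hnq ?_
      rcases hf : f.cons with _ | ⟨g0, _ | ⟨g1, r⟩⟩
      · rw [hf] at t5; simp at t5
      · rw [hf] at t5; simp at t5
      · rw [hf] at t5 hq
        simp only [Bool.and_eq_true, List.all_eq_true] at t5
        obtain ⟨j', rfl⟩ : ∃ j', j = j' + 2 := ⟨j - 2, by omega⟩
        simp only [List.getElem?_cons_succ] at hq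
        exact t5.2 q (List.mem_of_getElem? hq)
    · rcases hf : f.cons with _ | ⟨g0, _ | ⟨g1, r⟩⟩
      · rw [hf] at t5; simp at t5
      · rw [hf] at t5; simp at t5
      · rw [hf] at t5
        simp only [Bool.and_eq_true, Bool.or_eq_true] at t5
        rcases t5.1 with h2 | h2
        · have hq : f.cons[0]? = some g0 := by rw [hf]; simp
          obtain ⟨g, hg, hnq⟩ := cons_get hcl.cons hq
          exact ⟨g, Or.inl hg, key hg hq hnq h2⟩
        · have hq : f.cons[1]? = some g1 := by rw [hf]; simp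
          obtain ⟨g, hg, hnq⟩ := cons_get hcl.cons hq
          exact ⟨g, Or.inr hg, key hg hq hnq h2⟩

end Kusner.Num.P
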