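import Pool.Agent.helper11.Kus3.PieceB

/-!
# Kusner's question, numerics part, section N8: soundness of the checker
-/

open Set Metric MeasureTheory
open scoped ContDiff Topology

namespace Kusner.Num.P

open Kusner.Num

theorem int_lin (p : List ℚ) (e0 e1 errf : ℚ) (c : ℝ) :
    ∫ x in (e0 : ℝ)..e1, c * (evL p x + (errf : ℝ)) =
      c * (((intQ p e0 e1 + errf * (e1 - e0) : ℚ)) : ℝ) := by
  rw [intervalIntegral.integral_const_mul, intervalIntegral.integral_add
    ((evL_continuous p).intervalIntegrable _ _) (continuous_const.intervalIntegrable _ _),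
    integral_evL, intervalIntegral.integral_const]
  push_cast
  rw [smul_eq_mul]
  ring

/-- The contribution of a strip. -/
theorem strip_contrib {f : QFilm} {δ ε errf ebot : ℚ} (hδ : 0 ≤ δ) (hδ' : δ ≤ 1 / 100)
    (hε : 0 ≤ ε) {w0 wt : ℝ} {wv a b : E3} {cons : List Con}
    (hcl : FilmClose δ f w0 wt wv a b cons) (hw : w0 ^ 2 + ‖wv‖ ^ 2 - wt ^ 2 = 1)
    (hwv : wv ≠ 0) (hab : Perp wv a b) (hfilm : filmOK f δ ε = true)
    (hnear : f.cons.all (nearOK f δ ε) = true) {S : Set E4}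
    (hcos : ∀ Y ∈ S, 0 ≤ inner ℝ a (vec Y))
    (hout : ∀ Y ∈ S, ∀ (j : ℕ) (g : Con), cons[j]? = some g → (j = 0 → 7 / 20 ≤ Y 0) →
      (j = 1 → Y 0 ≤ 7 / 20) → g.val Y ≤ 0)
    {s : QStrip} (hin : s.kind = 0 → ∀ Y : E4, ‖Y‖ = 1 →
      w0 * Y 0 + inner ℝ wv (vec Y) = wt → (ebot : ℝ) ≤ Y 0 →
      (∀ (j : ℕ) (g : Con), cons[j]? = some g → 2 ≤ j → g.val Y ≤ 0) →
      (∃ g, (cons[0]? = some g ∨ cons[1]? = some g) ∧ g.val Y ≤ 0) → Y ∈ S)
    (hs : stripOK f δ ε errf (phiL f.w0 f.wt) s = true) (hbot : (ebot : ℝ) ≤ s.e0) :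
    ∃ g : ℝ → ℝ, IntervalIntegrable g volume (s.e0 : ℝ) (s.e1 : ℝ) ∧
      ∫ x in (s.e0 : ℝ)..(s.e1 : ℝ), g x ≤ ((stripVal errf (phiL f.w0 f.wt) s : ℚ) : ℝ) ∧
      ∀ x ∈ Ioo (s.e0 : ℝ) (s.e1 : ℝ), Phi x (w0 - wt * x) *
        (volume (slice (dom w0 wt wv a b S) x)).toReal ≤ g x := by
  set p := phiL f.w0 f.wt with hp
  -- the approximation
  have happ : 20000 * δ ≤ errf → ∀ x, 0 < rho2 w0 wt wv x →
      |Phi x (w0 - wt * x) - evL p x| ≤ (errf : ℝ) := fun herr x hx => by
    obtain ⟨b1, b2⟩ := film_bounds hw hwv hx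
    exact approx hδ' herr hcl.w0 hcl.wt b1 b2
  have herr0 : 20000 * δ ≤ errf → (0 : ℝ) ≤ errf := fun herr => by
    have h1 : (0 : ℚ) ≤ errf := le_trans (by positivity) herr
    exact_mod_cast h1
  have hempty : ∀ x, rho2 w0 wt wv x ≤ 0 →
      (volume (slice (dom w0 wt wv a b S) x)).toReal = 0 := fun x hx => by
    rw [slice_eq_empty hx]; simp
  unfold stripOK at hs
  split at hs
  · -- kind 0
    rename_i hk
    simp only [Bool.and_eq_true, decide_eq_true_eq] at hs
    obtain ⟨⟨⟨⟨hrad, hpol⟩, hrlo⟩, hub⟩, harcs⟩ := hs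
    simp only [polOK, Bool.and_eq_true, decide_eq_true_eq] at hpol
    have herr := hpol.2
    have he01 : s.e0 ≤ s.e1 := by
      simp only [radOK, Bool.and_eq_true, decide_eq_true_eq] at hrad
      exact hrad.1.1.1.1.1.2
    have he01' : (s.e0 : ℝ) ≤ s.e1 := by exact_mod_cast he01
    have hub' : ∀ x ∈ Icc (s.e0 : ℝ) s.e1, evL p x + (errf : ℝ) ≤ 0 := fun x hx => by
      have h1 := evL_le_ubI p hx.1 hx.2
      have h2 : ((ubI p s.e0 s.e1 : ℚ) : ℝ) + errf ≤ 0 := by exact_mod_cast hub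
      linarith
    have hL := h11_inLen_nonneg s.arcs
    have hL' : (0 : ℝ) ≤ ((inLen s.arcs : ℚ) : ℝ) := by exact_mod_cast hL
    have hI : (((intQ p s.e0 s.e1 + errf * (s.e1 - s.e0) : ℚ)) : ℝ) ≤ 0 := by
      have h1 := int_lin p s.e0 s.e1 errf 1
      rw [one_mul] at h1
      rw [← h1]
      have h2 : ∫ x in (s.e0 : ℝ)..(s.e1 : ℝ), 1 * (evL p x + (errf : ℝ)) ≤
          ∫ _x in (s.e0 : ℝ)..(s.e1 : ℝ), (0 : ℝ) := by
        refine intervalIntegral.integral_mono_on he01' ?_ (continuous_const.intervalIntegrable _ _)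
          (fun x hx => by rw [one_mul]; exact hub' x hx)
        exact (continuous_const.mul ((evL_continuous p).add
          continuous_const)).intervalIntegrable _ _
      simpa using h2
    refine ⟨fun x => ((inLen s.arcs : ℚ) : ℝ) * (evL p x + (errf : ℝ)), ?_, ?_, ?_⟩
    · exact (continuous_const.mul ((evL_continuous p).add
        continuous_const)).intervalIntegrable _ _
    · rw [int_lin]
      have h1 : stripVal errf p s =
          inLen s.arcs * min 0 (intQ p s.e0 s.e1 + errf * (s.e1 - s.e0)) := by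
        unfold stripVal; rw [hk]; rfl
      rw [h1]
      have h2 : intQ p s.e0 s.e1 + errf * (s.e1 - s.e0) ≤ 0 := by exact_mod_cast hI
      rw [min_eq_right h2]
      push_cast
      exact le_refl _
    · intro x hx
      obtain ⟨r1, r2⟩ := rad_bounds hδ hε hcl hwv hfilm hrad hx.1.le hx.2.le
      have hrlo'' : (0 : ℝ) < s.rlo := by exact_mod_cast hrlo
      have hrho : 0 < rho2 w0 wt wv x := Real.sqrt_pos.mp (lt_of_lt_of_le hrlo'' r1)
      have h1 := inLen_le_slice hδ hε hcl hwv hab hfilm hnear (hin hk) hrad hrlo harcs hbot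
        hx.1.le hx.2.le
      have h2 : ((inLen s.arcs : ℚ) : ℝ) ≤
          (volume (slice (dom w0 wt wv a b S) x)).toReal := by
        rw [← ENNReal.ofReal_le_iff_le_toReal (volume_slice_lt_top w0 wt wv a b S x).ne]
        exact h1
      have h3 := (abs_le.mp (happ herr x hrho)).2
      have h4 := hub' x ⟨hx.1.le, hx.2.le⟩
      calc Phi x (w0 - wt * x) * (volume (slice (dom w0 wt wv a b S) x)).toReal
          ≤ (evL p x + errf) * (volume (slice (dom w0 wt wv a b S) x)).toReal :=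
            mul_le_mul_of_nonneg_right (by linarith) ENNReal.toReal_nonneg
        _ ≤ (evL p x + errf) * ((inLen s.arcs : ℚ) : ℝ) :=
            mul_le_mul_of_nonpos_left h2 h4
        _ = _ := mul_comm _ _
  · -- kind 1
    rename_i hk
    simp only [Bool.and_eq_true, decide_eq_true_eq] at hs
    obtain ⟨⟨⟨hrad, hpol⟩, hub⟩, harcs⟩ := hs
    simp only [polOK, Bool.and_eq_true, decide_eq_true_eq] at hpol
    have herr := hpol.2
    have herr' := herr0 herr
    refine ⟨fun x => ((outLen s.arcs : ℚ) : ℝ) * (evL p x + (errf : ℝ)), ?_, ?_, ?_⟩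
    · exact (continuous_const.mul ((evL_continuous p).add
        continuous_const)).intervalIntegrable _ _
    · rw [int_lin]
      have h1 : stripVal errf p s =
          outLen s.arcs * (intQ p s.e0 s.e1 + errf * (s.e1 - s.e0)) := by
        unfold stripVal; rw [hk]; rfl
      rw [h1]
      push_cast
      exact le_refl _
    · intro x hx
      obtain ⟨h1, h0⟩ := slice_le_outLen hδ hε hcl hwv hab hfilm hnear hcos hout hrad harcs
        hx.1.le hx.2.le
      have h5 : (errf : ℝ) ≤ evL p x := by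
        have h6 := evL_le_ubI (scL (-1) p) hx.1.le hx.2.le
        rw [evL_scL] at h6
        have h7 : ((ubI (scL (-1) p) s.e0 s.e1 : ℚ) : ℝ) + errf ≤ 0 := by exact_mod_cast hub
        push_cast at h6
        linarith
      have h2 : (volume (slice (dom w0 wt wv a b S) x)).toReal ≤ ((outLen s.arcs : ℚ) : ℝ) :=
        ENNReal.toReal_le_of_le_ofReal h0 h1
      rcases le_or_gt (rho2 w0 wt wv x) 0 with hr | hr
      · rw [hempty x hr, mul_zero]
        exact mul_nonneg h0 (by linarith)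
      · have h3 := (abs_le.mp (happ herr x hr)).2
        calc Phi x (w0 - wt * x) * (volume (slice (dom w0 wt wv a b S) x)).toReal
            ≤ (evL p x + errf) * (volume (slice (dom w0 wt wv a b S) x)).toReal :=
              mul_le_mul_of_nonneg_right (by linarith) ENNReal.toReal_nonneg
          _ ≤ (evL p x + errf) * ((outLen s.arcs : ℚ) : ℝ) :=
              mul_le_mul_of_nonneg_left h2 (by linarith)
          _ = _ := mul_comm _ _
  · -- kind 2
    rename_i hk
    simp only [Bool.and_eq_true] at hs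
    obtain ⟨⟨hrad, hpol⟩, harcs⟩ := hs
    simp only [polOK, Bool.and_eq_true, decide_eq_true_eq] at hpol
    have herr := hpol.2
    refine ⟨fun _ => ((outLen s.arcs : ℚ) : ℝ) *
      (((max 0 (ubI p s.e0 s.e1 + errf) : ℚ)) : ℝ), ?_, ?_, ?_⟩
    · exact continuous_const.intervalIntegrable _ _
    · rw [intervalIntegral.integral_const]
      have h1 : stripVal errf p s =
          outLen s.arcs * (max 0 (ubI p s.e0 s.e1 + errf) * (s.e1 - s.e0)) := by
        unfold stripVal; rw [hk]; rfl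
      rw [h1, smul_eq_mul, Rat.cast_mul, Rat.cast_mul, Rat.cast_sub]
      apply le_of_eq
      ring
    · intro x hx
      obtain ⟨h1, h0⟩ := slice_le_outLen hδ hε hcl hwv hab hfilm hnear hcos hout hrad harcs
        hx.1.le hx.2.le
      have h2 : (volume (slice (dom w0 wt wv a b S) x)).toReal ≤ ((outLen s.arcs : ℚ) : ℝ) :=
        ENNReal.toReal_le_of_le_ofReal h0 h1
      have hmax : (0 : ℝ) ≤ (((max 0 (ubI p s.e0 s.e1 + errf) : ℚ)) : ℝ) := by
        have := le_max_left (0 : ℚ) (ubI p s.e0 s.e1 + errf)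
        exact_mod_cast this
      rcases le_or_gt (rho2 w0 wt wv x) 0 with hr | hr
      · rw [hempty x hr, mul_zero]
        exact mul_nonneg h0 hmax
      · have h3 := (abs_le.mp (happ herr x hr)).2
        have h4 := evL_le_ubI p hx.1.le hx.2.le
        have h5 : Phi x (w0 - wt * x) ≤ (((max 0 (ubI p s.e0 s.e1 + errf) : ℚ)) : ℝ) := by
          have h6 : ((ubI p s.e0 s.e1 + errf : ℚ) : ℝ) ≤
              (((max 0 (ubI p s.e0 s.e1 + errf) : ℚ)) : ℝ) := by
            have := le_max_right (0 : ℚ) (ubI p s.e0 s.e1 + errf)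
            exact_mod_cast this
          push_cast at h6
          push_cast
          linarith
        calc Phi x (w0 - wt * x) * (volume (slice (dom w0 wt wv a b S) x)).toReal
            ≤ (((max 0 (ubI p s.e0 s.e1 + errf) : ℚ)) : ℝ) *
              (volume (slice (dom w0 wt wv a b S) x)).toReal :=
              mul_le_mul_of_nonneg_right h5 ENNReal.toReal_nonneg
          _ ≤ (((max 0 (ubI p s.e0 s.e1 + errf) : ℚ)) : ℝ) * ((outLen s.arcs : ℚ) : ℝ) :=
              mul_le_mul_of_nonneg_left h2 hmax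
          _ = _ := mul_comm _ _
  · -- kind 3
    rename_i hk
    simp only [Bool.and_eq_true, decide_eq_true_eq] at hs
    obtain ⟨⟨hrad, harcs⟩, hz⟩ := hs
    refine ⟨fun _ => 0, continuous_const.intervalIntegrable _ _, ?_, ?_⟩
    · have h1 : stripVal errf p s = 0 := by
        unfold stripVal; rw [hk]; rfl
      rw [h1]; simp
    · intro x hx
      obtain ⟨h1, h0⟩ := slice_le_outLen hδ hε hcl hwv hab hfilm hnear hcos hout hrad harcs
        hx.1.le hx.2.le
      rw [hz] at h1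
      have h2 : volume (slice (dom w0 wt wv a b S) x) = 0 := by
        simpa using h1
      rw [h2]; simp
  · -- kind 4
    rename_i hk
    simp only [Bool.and_eq_true, decide_eq_true_eq] at hs
    obtain ⟨⟨⟨he0, he01⟩, he1⟩, hr⟩ := hs
    refine ⟨fun _ => 0, continuous_const.intervalIntegrable _ _, ?_, ?_⟩
    · have h1 : stripVal errf p s = 0 := by
        unfold stripVal; rw [hk]; rfl
      rw [h1]; simp
    · intro x hx
      rw [hempty x (rho2_nonpos hδ hε hcl hwv hfilm he0 he01 he1 hr hx.1.le hx.2.le), mul_zero]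
  · -- kind at least 5
    rename_i k0 k1 k2 k3 k4
    simp only [Bool.and_eq_true, decide_eq_true_eq] at hs
    obtain ⟨⟨he01, hpol⟩, hub⟩ := hs
    simp only [polOK, Bool.and_eq_true, decide_eq_true_eq] at hpol
    have herr := hpol.2
    refine ⟨fun _ => 0, continuous_const.intervalIntegrable _ _, ?_, ?_⟩
    · have h1 : stripVal errf p s = 0 := by
        unfold stripVal
        split
        · rename_i h; exact absurd h k0
        · rename_i h; exact absurd h k1
        · rename_i h; exact absurd h k2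
        · rfl
      rw [h1]; simp
    · intro x hx
      rcases le_or_gt (rho2 w0 wt wv x) 0 with hr | hr
      · rw [hempty x hr, mul_zero]
      · have h3 := (abs_le.mp (happ herr x hr)).2
        have h4 := evL_le_ubI p hx.1.le hx.2.le
        have h5 : ((ubI p s.e0 s.e1 : ℚ) : ℝ) + errf ≤ 0 := by exact_mod_cast hub
        exact mul_nonpos_of_nonpos_of_nonneg (by linarith) ENNReal.toReal_nonneg

/-- Every strip satisfies `e0 ≤ e1`. -/
theorem stripOK_le {f : QFilm} {δ ε errf : ℚ} {p : List ℚ} {s : QStrip}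
    (hs : stripOK f δ ε errf p s = true) : s.e0 ≤ s.e1 := by
  unfold stripOK at hs
  split at hs
  · simp only [radOK, Bool.and_eq_true, decide_eq_true_eq] at hs
    exact hs.1.1.1.1.1.1.1.1.1.2
  · simp only [radOK, Bool.and_eq_true, decide_eq_true_eq] at hs
    exact hs.1.1.1.1.1.1.1.1.2
  · simp only [radOK, Bool.and_eq_true, decide_eq_true_eq] at hs
    exact hs.1.1.1.1.1.1.1.2
  · simp only [radOK, Bool.and_eq_true, decide_eq_true_eq] at hs
    exact hs.1.1.1.1.1.1.1.2
  · simp only [Bool.and_eq_true, decide_eq_true_eq] at hs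
    exact hs.1.1.2
  · simp only [Bool.and_eq_true, decide_eq_true_eq] at hs
    exact hs.1.1

theorem piece_bound {f : QFilm} {δ ε errf ebot etop : ℚ} {strips : List QStrip}
    {wlo whi bound : ℚ} (hok : pieceOK f δ ε errf ebot etop strips wlo whi bound = true)
    {w0 wt : ℝ} {wv a b : E3} {cons : List Con} (hcl : FilmClose δ f w0 wt wv a b cons)
    (hw : w0 ^ 2 + ‖wv‖ ^ 2 - wt ^ 2 = 1) (hwv : wv ≠ 0) (hab : Perp wv a b)
    {S : Set E4} (hS : MeasurableSet S) (hS1 : ∀ Y ∈ S, ‖Y‖ = 1)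
    (hS2 : ∀ Y ∈ S, w0 * Y 0 + inner ℝ wv (vec Y) = wt)
    (hbot : ∀ Y ∈ S, (ebot : ℝ) ≤ Y 0) (htop : ∀ Y ∈ S, Y 0 ≤ etop)
    (hcos : ∀ Y ∈ S, 0 ≤ inner ℝ a (vec Y))
    (hout : ∀ Y ∈ S, ∀ (j : ℕ) (g : Con), cons[j]? = some g → (j = 0 → 7 / 20 ≤ Y 0) →
      (j = 1 → Y 0 ≤ 7 / 20) → g.val Y ≤ 0)
    (hin : (∃ s ∈ strips, s.kind = 0) → ∀ Y : E4, ‖Y‖ = 1 →
      w0 * Y 0 + inner ℝ wv (vec Y) = wt → (ebot : ℝ) ≤ Y 0 →
      (∀ (j : ℕ) (g : Con), cons[j]? = some g → 2 ≤ j → g.val Y ≤ 0) →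
      (∃ g, (cons[0]? = some g ∨ cons[1]? = some g) ∧ g.val Y ≤ 0) → Y ∈ S) :
    ∫ Y in S, Phi (Y 0) (w0 - wt * Y 0) ∂μH[2] ≤ cH * bound := by
  simp only [pieceOK, Bool.and_eq_true, decide_eq_true_eq] at hok
  obtain ⟨⟨⟨⟨⟨⟨⟨⟨⟨⟨⟨hδ, hδ'⟩, hε⟩, hfilm⟩, hnear⟩, hstrips⟩, hchain⟩, hwlo⟩, hW1⟩, hW2⟩,
    hwhi⟩, htot⟩ := hok
  rw [List.all_eq_true] at hstrips
  have hWpos : 0 < ‖wv‖ := norm_pos_iff.mpr hwv
  set p := phiL f.w0 f.wt with hp
  obtain ⟨ch0, ch1⟩ := chain_get hchain
  set e : ℕ → ℝ := fun i => (((strips.map QStrip.e0).getD i etop : ℚ) : ℝ) with he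
  set v : ℕ → ℝ := fun i =>
    (strips.map fun s => ((stripVal errf p s : ℚ) : ℝ)).getD i 0 with hv
  have e_lt : ∀ i (hi : i < strips.length), e i = ((strips[i]).e0 : ℝ) := fun i hi => by
    simp only [he]
    rw [List.getD_eq_getElem _ _ (by simpa using hi), List.getElem_map]
  have e_succ : ∀ i (hi : i < strips.length), e (i + 1) = ((strips[i]).e1 : ℝ) := fun i hi => by
    simp only [he]
    rw [ch1 i hi]
  have e_zero : e 0 = (ebot : ℝ) := by
    simp only [he]; rw [ch0]
  have e_top : e strips.length = (etop : ℝ) := by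
    simp only [he]
    rw [List.getD_eq_default _ _ (by simp)]
  have v_lt : ∀ i (hi : i < strips.length), v i = ((stripVal errf p strips[i] : ℚ) : ℝ) :=
    fun i hi => by
      simp only [hv]
      rw [List.getD_eq_getElem _ _ (by simpa using hi), List.getElem_map]
  have hmono : ∀ i < strips.length, e i ≤ e (i + 1) := fun i hi => by
    rw [e_lt i hi, e_succ i hi]
    exact_mod_cast stripOK_le (hstrips _ (List.getElem_mem hi))
  have hebot : ∀ i ≤ strips.length, (ebot : ℝ) ≤ e i := by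
    intro i
    induction i with
    | zero => intro _; rw [e_zero]
    | succ i ih => intro hi; exact (ih (by omega)).trans (hmono i (by omega))
  have hmain : ∫ u in dom w0 wt wv a b S, Phi u.1 (w0 - wt * u.1) ≤
      ∑ i ∈ Finset.range strips.length, v i := by
    refine strip_bound (f := fun x => Phi x (w0 - wt * x))
      (measurableSet_dom w0 wt wv a b hS) (by unfold Phi; fun_prop) strips.length e v
      hmono ?_ ?_ ?_
    · intro u hu
      have h1 := hbot _ hu.2.2
      have h2 := htop _ hu.2.2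
      rw [fpar_zero] at h1 h2
      rw [e_zero, e_top]
      exact ⟨h1, h2⟩
    · exact fun u hu => hu.2.1
    · intro i hi
      have hmem := List.getElem_mem hi
      have hb : (ebot : ℝ) ≤ ((strips[i]).e0 : ℝ) := by
        rw [← e_lt i hi]; exact hebot i hi.le
      have hg := strip_contrib hδ hδ' hε hcl hw hwv hab hfilm hnear hcos hout
        (fun hk => hin ⟨_, hmem, hk⟩) (hstrips _ hmem) hb
      rw [e_lt i hi, e_succ i hi, v_lt i hi]
      exact hg
  have hsum : ∑ i ∈ Finset.range strips.length, v i = ((totVal errf p strips : ℚ) : ℝ) := by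
    have h1 := sum_getD (strips.map fun s => ((stripVal errf p s : ℚ) : ℝ))
    rw [List.length_map] at h1
    rw [h1]
    unfold totVal
    rw [Rat.cast_list_sum, List.map_map]
    rfl
  have hnw : |‖wv‖ ^ 2 - (f.W2 : ℝ)| ≤ (ε : ℝ) :=
    (near_film hδ hcl hfilm (le_refl (0 : ℚ)) zero_le_one).1
  rw [abs_le] at hnw
  have hlo : (wlo : ℝ) ≤ ‖wv‖ := by
    have h1 : (wlo : ℝ) ^ 2 + ε ≤ ((f.W2 : ℚ) : ℝ) := by exact_mod_cast hW1
    have h2 : (wlo : ℝ) ^ 2 ≤ ‖wv‖ ^ 2 := by linarith [hnw.1]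
    exact (sq_le_sq₀ (by exact_mod_cast hwlo.le) hWpos.le).mp h2
  have hhi : ‖wv‖ ≤ (whi : ℝ) := by
    have h1 : ((f.W2 : ℚ) : ℝ) + ε ≤ (whi : ℝ) ^ 2 := by exact_mod_cast hW2
    have h2 : ‖wv‖ ^ 2 ≤ (whi : ℝ) ^ 2 := by linarith [hnw.2]
    exact (sq_le_sq₀ hWpos.le (by exact_mod_cast hwhi.le)).mp h2
  have hfin : ((totVal errf p strips : ℚ) : ℝ) ≤ bound * ‖wv‖ := by
    split_ifs at htot with hb
    · have h1 : ((totVal errf p strips : ℚ) : ℝ) ≤ bound * wlo := by exact_mod_cast htot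
      have hb' : (0 : ℝ) ≤ bound := by exact_mod_cast hb
      exact h1.trans (mul_le_mul_of_nonneg_left hlo hb')
    · have h1 : ((totVal errf p strips : ℚ) : ℝ) ≤ bound * whi := by exact_mod_cast htot
      have hb' : (bound : ℝ) ≤ 0 := by exact_mod_cast (not_le.mp hb).le
      exact h1.trans (mul_le_mul_of_nonpos_left hhi hb')
  have hfi := film_integral hw hwv hab hS hS1 hS2 (fun Y => Phi (Y 0) (w0 - wt * Y 0))
  simp only [fpar_zero] at hfi
  rw [hfi]
  have hc := cH_pos
  have h1 : ∫ u in dom w0 wt wv a b S, Phi u.1 (w0 - wt * u.1) ≤ bound * ‖wv‖ :=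
    hmain.trans (hsum.le.trans hfin)
  calc cH / ‖wv‖ * ∫ u in {u : ℝ × ℝ | 0 < rho2 w0 wt wv u.1 ∧ u.2 ∈ Ioc (-Real.pi) Real.pi ∧
        fpar w0 wt wv a b u ∈ S}, Phi u.1 (w0 - wt * u.1)
      ≤ cH / ‖wv‖ * (bound * ‖wv‖) := mul_le_mul_of_nonneg_left h1 (by positivity)
    _ = cH * bound := by field_simp

end Kusner.Num.P
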